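import Pool.Agent.K4H38.SY.Defs
import Pool.Agent.K4H24.Adm.Defs

/-!
# The symmetric maximal factor, for classes of theories with rational traces: definitions
-/

open CategoryTheory AlgebraicGeometry Polynomial

set_option linter.checkUnivs false

universe u₁ v₁ u v

namespace Pool.Agent.K4H38.SYG

open Pool.Agent.H914 Pool.Agent.Y106.One Pool.Agent.K4H24.Adm Pool.Agent.K4H38.SY VarClass Obj
  WeilCohomology

section Alg

variable {K : Type*} [Field K] {V : Type*} [AddCommGroup V] [Module K V]

/-- The dimension of the subspace `U` is `r`. -/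
def DimIs (U : Submodule K V) (r : ℕ) : Prop := Module.finrank K U = r

/-- The map `F` acts on the classes `c(z)` like a Frobenius endomorphism relative to the field with
`q` elements: for every `z` of codimension `j` there is `m ≥ 1` such that the `m`-th iterate of `F`
multiplies the class of `z` by `q ^ (m j)`. -/
def FrobeniusOn {Z : Type*} [AddCommGroup Z] (cyc : ℕ → Z → Prop) (c : Z →+ V) (F : Z → Z)
    (q : ℕ) : Prop :=
  ∀ j, ∀ z, cyc j z → ∃ m ≥ 1, c (F^[m] z) = (q : K) ^ (m * j) • c z

end Alg

variable {k : Type u} [Field k] {𝒱 : VarClass k} {ops : CycleOps 𝒱}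
  {k₀ : Type u₁} [Field k₀] {𝒱₀ : VarClass k₀} {ops₀ : CycleOps 𝒱₀}

/-- The operator `z ∘ ξ ^ (n - i)`, for a cycle `z` on `X × X`, where `n = dim X` and `ξ` is the
class of `D`. -/
noncomputable abbrev cycLef (W : WeilCohomology.{u, v} ops) (X : 𝒱.Obj) (D : X.Cycles) (i : ℕ)
    (z : (X.prod X).Cycles) : Module.End W.K (W.H X) :=
  corrLef W X D i (W.cl _ z)

/-- The operator `z ∘ ξ ^ (n - i)` is self-adjoint for the form `tr(a · ξ ^ (n - i) · b)` on
`H^i(X)`. -/
def SymmetricCycle (W : WeilCohomology.{u, v} ops) (X : 𝒱.Obj) (D : X.Cycles) (i : ℕ)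
    (z : (X.prod X).Cycles) : Prop :=
  SelfAdjointOn (W.gr X i) (W.tr X) (Pool.Agent.W537.lefPow W X D (X.dim - i)) (cycLef W X D i z)

/-- The operator `F` on the cohomology of `X` corresponds to the operator `f^*` on the cohomology of
`X₀`, in a comparison of the theory `W` with a theory `W₀` for `X₀` in the class `P₀`, and `f × f`
acts on the classes of cycles on `X₀ × X₀` like a Frobenius endomorphism. In the intended use `f` is
the Frobenius endomorphism of a model over a finite field of the good reduction `X₀` of `X` (or of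
`X₀ = X`, if `X` itself is a variety over the algebraic closure of a finite field). -/
def IsFrobeniusIn {X : 𝒱.Obj} (R : Reduction X 𝒱₀) (P₀ : WeilCohomology.{u₁, v₁} ops₀ → Prop)
    (W : WeilCohomology.{u, v} ops) (F : Module.End W.K (W.H X)) : Prop :=
  ∃ (W₀ : WeilCohomology.{u₁, v₁} ops₀) (C : Comparison W X W₀ R.X₀ R.sp),
    P₀ W₀ ∧ Corresponds C.s F (W₀.map R.f) ∧
      FrobeniusOn (K := W₀.K) (R.X₀.prod R.X₀).IsCyc (W₀.cl _) (ops₀.pull (squareMap R.f)) R.q

/-- For the cycle `z`, the number `r` and the class `P` of theories: for every variety `X₀` with an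
endomorphism `f` as in `Reduction` and every class `P₀` of theories with rational traces on
`H^i(X₀)` there are rational polynomials `g N` such that, for all theories in `P` and all operators
`F` which correspond to `f^*` (`IsFrobeniusIn`), the operator `z ∘ ξ ^ (n - i)` and the `F ^ N`, for
all multiples `N` of a number `m`, satisfy `CutsOut` with the polynomial `g N`; if the
characteristic polynomials of the `F ^ N` on `H^i(X)` have no factor with the functional equation
except the trivial ones then `r = 0` or one cycle inverts `ξ ^ (n - i)` for all theories in `P`. -/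
def FrobeniusPart (P : WeilCohomology.{u, v} ops → Prop) (X : 𝒱.Obj) (D : X.Cycles) (i : ℕ)
    (z : (X.prod X).Cycles) (r : ℕ) : Prop :=
  ∀ (k₀ : Type u₁) [Field k₀] (𝒱₀ : VarClass k₀) (ops₀ : CycleOps 𝒱₀) (R : Reduction X 𝒱₀)
    (P₀ : WeilCohomology.{u₁, v₁} ops₀ → Prop), RationalTraces P₀ R.X₀ i →
    ∃ g : ℕ → ℚ[X], ∀ (W : WeilCohomology.{u, v} ops) (F : Module.End W.K (W.H X)), P W →
      IsFrobeniusIn R P₀ W F →
        CutsOutAll (W.gr X i) (cycLef W X D i z) F R.q i r g ∧
        (NoFactor (W.gr X i) F R.q i → r = 0 ∨ OneCycleForAll P X D i)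

/-- The class of the theories for which the endomorphism `f` of `X` satisfies the Riemann hypothesis
has rational traces. (By the theorem of Deligne, which is not proved here, the `ℓ`-adic theories
are in this class if `f` is the Frobenius endomorphism of a model over a finite field.) -/
def RiemannCase (ops : CycleOps 𝒱) (X : 𝒱.Obj) (i : ℕ) : Prop :=
  ∀ (f : X ⟶ X) (q : ℕ), 1 < q →
    RationalTraces (fun W : WeilCohomology.{u, v} ops => RiemannHypothesis W X f q) X i

end Pool.Agent.K4H38.SYG
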