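import Pool.Agent.K4H38.SY.Main
import Pool.Agent.K4H24.Adm.Same

/-!
# The symmetric maximal factor, for classes of theories with rational traces
-/

open CategoryTheory AlgebraicGeometry Finset Polynomial

set_option linter.unusedSectionVars false

universe u₁ v₁ u v

namespace Pool.Agent.K4H38.SYG

open Pool.Agent.H914 Pool.Agent.H447 Pool.Agent.W537 Pool.Agent.Y106.One Pool.Agent.R907
  Pool.Agent.K4H38.SY VarClass Obj WeilCohomology

variable {k : Type u} [Field k] {𝒱 : VarClass k} {ops : CycleOps 𝒱} {X : 𝒱.Obj}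
  {W W' : WeilCohomology.{u, v} ops} {i : ℕ} {P : WeilCohomology.{u, v} ops → Prop}

/-- **Maximal partial inverses from a unit.** -/
theorem maximalPartial_of_unit (hS : ∀ W W' : WeilCohomology.{u, v} ops, P W → P W' → SameTraces X i W W') {D : X.Cycles} (hD : X.IsCyc 1 D)
    (hi : i ≤ X.dim) {W₁ : WeilCohomology.{u, v} ops} (hW₁ : P W₁)
    {E : Fam.{u, v} ops X} {z : (X.prod X).Cycles} (hz : (X.prod X).IsCyc i z)
    (hEz : ∀ W : WeilCohomology.{u, v} ops, E W = W.corr (W.cl _ z) * LL D W ^ (X.dim - i))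
    (hE : ∀ W' : WeilCohomology.{u, v} ops, SameTraces X i W₁ W' →
      IsUnit' (lefIdeal.{u, v} ops X D i) i E W') :
    ∃ r : ℕ, MaximalPartialInverse.{u, v} (ops := ops) P X D i z r ∧
      ∀ W : WeilCohomology.{u, v} ops, P W →
        (OneCycleForAll.{u, v} (ops := ops) P X D i ↔
          r = W.betti X i) := by
  have hJ := lefIdeal_isLeftIdeal.{u, v} (ops := ops) hD hi
  have hEJ : E ∈ lefIdeal.{u, v} ops X D i := ⟨z, hz, hEz⟩
  have hEr := hJ.real E hEJ
  have hEz' : ∀ W : WeilCohomology.{u, v} ops, corrLef W X D i (W.cl _ z) = E W := by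
    intro W
    rw [corrLef_eq, hEz]
  have hu : ∀ W : WeilCohomology.{u, v} ops, P W →
      IsUnit' (lefIdeal.{u, v} ops X D i) i E W :=
    fun W hW => hE W (hS _ _ hW₁ hW)
  set r := Module.finrank W₁.K ((W₁.gr X i).map (E W₁)) with hr
  have hrank : ∀ W : WeilCohomology.{u, v} ops, P W →
      Module.finrank W.K ((W.gr X i).map (E W)) = r := fun W hW =>
    finrank_eq_of_same hEr (hS _ _ hW₁ hW) (hu W₁ hW₁).idem (hu W hW).idem
  have hbound : ∀ W : WeilCohomology.{u, v} ops, P W →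
      BoundsInverses W X D i r := by
    intro W hW γ hγ
    obtain ⟨m, hm⟩ := rank_le_of_trace_zero (i := i) (W := W) hEr
      (KJ_le_span hJ (corrLef_mem (D := D) hγ))
      (fun g hg => (hu W hW).trace_zero hJ (corrLef_mem hγ) hg)
    exact ⟨m, hm.trans (hrank W hW).le⟩
  refine ⟨r, ⟨hz, fun W hW => ⟨⟨?_, ?_⟩, hbound W hW⟩⟩, fun W hW => ⟨?_, ?_⟩⟩
  · rw [hEz']
    exact (hu W hW).idem
  · rw [hEz']
    exact hrank W hW
  · rintro ⟨z', hz'⟩
    have h1 := (inverts_iff hD W hi).1 (hz' W hW)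
    have h2 : ∀ a ∈ W.gr X i, corrLef W X D i (W.cl _ z') a = a := by
      intro a ha
      rw [corrLef_eq]
      exact h1.2 a (by rwa [show X.dim - (X.dim - i) = i by omega])
    obtain ⟨m, hm⟩ := hbound W hW (W.cl _ z') (Submodule.subset_span ⟨i, rfl, z', h1.1, rfl⟩)
    have h3 : ∀ m : ℕ, (W.gr X i).map (corrLef W X D i (W.cl _ z') ^ m) = W.gr X i := by
      intro m
      have h4 : ∀ a ∈ W.gr X i, (corrLef W X D i (W.cl _ z') ^ m) a = a := by
        intro a ha
        induction m with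
        | zero => rfl
        | succ m ih => rw [pow_succ, Module.End.mul_apply, h2 a ha, ih]
      apply le_antisymm
      · rintro _ ⟨a, ha, rfl⟩
        rw [h4 a ha]
        exact ha
      · intro a ha
        exact ⟨a, ha, h4 a ha⟩
    rw [h3] at hm
    apply le_antisymm _ hm
    rw [← hrank W hW]
    exact Submodule.finrank_map_le _ _
  · intro h
    have key : ∀ W' : WeilCohomology.{u, v} ops, P W' →
        ∀ a ∈ W'.gr X i, E W' a = a := by
      intro W' hW' a ha
      have hb : r = W'.betti X i := by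
        rw [h, betti_eq_of_same (hS _ _ hW hW')]
      have hle : (W'.gr X i).map (E W') ≤ W'.gr X i := by
        rintro _ ⟨b, hb, rfl⟩
        exact real_mem hEr W' hb
      have heq : (W'.gr X i).map (E W') = W'.gr X i := by
        apply Submodule.eq_of_le_of_finrank_eq hle
        rw [hrank W' hW', hb]
        rfl
      rw [← heq] at ha
      obtain ⟨b, hb, rfl⟩ := ha
      exact (hu W' hW').idem b hb
    exact oneCycle_of_common hD hi ⟨z, hz, hEz⟩ key

/-- **The symmetric maximal factor**, without Frobenius. -/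
theorem exists_symmetricFactor (hS : ∀ W W' : WeilCohomology.{u, v} ops, P W → P W' → SameTraces X i W W') {D : X.Cycles} (hD : X.IsCyc 1 D)
    (hi : i ≤ X.dim) : ∃ (z : (X.prod X).Cycles) (r : ℕ),
      MaximalPartialInverse.{u, v} (ops := ops) P X D i z r ∧
      (∀ W : WeilCohomology.{u, v} ops, P W →
        (OneCycleForAll.{u, v} (ops := ops) P X D i ↔
          r = W.betti X i)) ∧
      (∀ W : WeilCohomology.{u, v} ops, P W →
        SelfAdjointOn (W.gr X i) (W.tr X) (lefPow W X D (X.dim - i))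
          (corrLef W X D i (W.cl _ z))) ∧
      (Odd i → Even r ∧ ∀ W : WeilCohomology.{u, v} ops, P W →
        InjectsOn (W.gr X i) (lefPow W X D (X.dim - i)) → Even (W.betti X i)) := by
  by_cases hex : ∃ W : WeilCohomology.{u, v} ops, P W
  swap
  · push Not at hex
    exact ⟨0, 0, ⟨SmVar.IsCyc.zero _ _, fun W hW => absurd hW (hex W)⟩,
      fun W hW => absurd hW (hex W), fun W hW => absurd hW (hex W),
      fun _ => ⟨Even.zero, fun W hW => absurd hW (hex W)⟩⟩
  obtain ⟨W₁, hW₁⟩ := hex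
  have hJ := lefIdeal_isLeftIdeal.{u, v} (ops := ops) hD hi
  obtain ⟨E, ⟨z, hz, hEz⟩, hsym, hE⟩ :=
    exists_symmetric hD hi (hS _ _ hW₁ hW₁)
  obtain ⟨r, h1, h2⟩ := maximalPartial_of_unit hS hD hi hW₁ hz hEz hE
  have hEr := hJ.real E ⟨z, hz, hEz⟩
  have hEz' : ∀ W : WeilCohomology.{u, v} ops, corrLef W X D i (W.cl _ z) = E W := by
    intro W
    rw [corrLef_eq, hEz]
  have hself : ∀ (W : WeilCohomology.{u, v} ops) (a b : W.H X),
      W.tr X (E W a * (W.cl X D ^ (X.dim - i) * b)) =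
        W.tr X (a * (W.cl X D ^ (X.dim - i) * E W b)) := by
    intro W a b
    have h3 := hsym W a b
    rwa [LL_pow_apply, LL_pow_apply] at h3
  refine ⟨z, r, h1, h2, fun W hW => ?_, fun hodd => ⟨?_, fun W hW hinj => ?_⟩⟩
  · intro a _ b _
    rw [hEz', lefPow_apply, lefPow_apply]
    exact hself W a b
  · have h3 := (h1.2 W₁ hW₁).1
    rw [InvertsOnFactor, hEz'] at h3
    rw [← h3.2]
    apply even_finrank (form W₁ (W₁.cl X D ^ (X.dim - i)) _)
    · rintro ⟨_, a, ha, rfl⟩ ⟨_, b, hb, rfl⟩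
      exact form_alt hodd (cl_pow_mem hD _) (real_mem hEr W₁ ha) (real_mem hEr W₁ hb)
    · refine nondeg_image (C := W₁.corr (W₁.cl _ z)) hi (cl_pow_mem hD _) (fun a _ => ?_)
        (fun a ha => real_mem hEr W₁ ha) h3.1 (fun a _ b _ => hself W₁ a b)
      rw [hEz, Module.End.mul_apply, LL_pow_apply]
  · change Even (Module.finrank W.K (W.gr X i))
    apply even_finrank (form W (W.cl X D ^ (X.dim - i)) _)
    · rintro ⟨a, ha⟩ ⟨b, hb⟩
      exact form_alt hodd (cl_pow_mem hD _) ha hb
    · rintro ⟨a, ha⟩ h4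
      apply Subtype.ext
      refine hinj a ha ?_
      rw [lefPow_apply]
      exact eq_zero_of_gr hi (cl_pow_mem hD _) ha fun b hb => h4 ⟨b, hb⟩

end Pool.Agent.K4H38.SYG
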