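import Pool.Agent.K4H38.SY.Final
import Pool.Agent.K4H38.SYG.Main
import Pool.Agent.K4H38.SYG.Defs

/-!
# The symmetric maximal factor and Frobenius, for classes of theories with rational traces
-/

open CategoryTheory AlgebraicGeometry Finset Polynomial

set_option linter.unusedSectionVars false
set_option linter.checkUnivs false

universe u₁ v₁ u v

namespace Pool.Agent.K4H38.SYG

open Pool.Agent.H914 Pool.Agent.H447 Pool.Agent.W537 Pool.Agent.Y106.One Pool.Agent.R907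
  Pool.Agent.K4H24.Adm Pool.Agent.K4H38.SY VarClass Obj WeilCohomology

variable {k : Type u} [Field k] {𝒱 : VarClass k} {ops : CycleOps 𝒱} {X : 𝒱.Obj}
  {W W' : WeilCohomology.{u, v} ops} {i : ℕ} {Q : WeilCohomology.{u, v} ops → Prop}
  {k₀ : Type u₁} [Field k₀] {𝒱₀ : VarClass k₀} {ops₀ : CycleOps 𝒱₀}
  {Q₀ : WeilCohomology.{u₁, v₁} ops₀ → Prop}

/-- A theory `W` for the variety `X`, a theory `W₀` for `X₀`, and a comparison between them; the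
operator `F` corresponds to `f^*`. -/
structure FrobTh {X : 𝒱.Obj} (Q : WeilCohomology.{u, v} ops → Prop)
    (Q₀ : WeilCohomology.{u₁, v₁} ops₀ → Prop) (R : Reduction X 𝒱₀) where
  /-- the theory for `X` -/
  W : WeilCohomology.{u, v} ops
  /-- the theory for the reduction -/
  W₀ : WeilCohomology.{u₁, v₁} ops₀
  /-- the comparison -/
  C : Comparison W X W₀ R.X₀ R.sp
  /-- the Frobenius operator on the cohomology of `X` -/
  F : Module.End W.K (W.H X)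
  mem : Q W
  mem₀ : Q₀ W₀
  corr : Corresponds C.s F (W₀.map R.f)
  cyc : FrobeniusOnCycles W₀ (R.X₀.prod R.X₀) (squareMap R.f) R.q

namespace FrobTh

variable {R : Reduction X 𝒱₀} (Θ : FrobTh.{u₁, v₁, u, v} (ops := ops) (ops₀ := ops₀) Q Q₀ R)

lemma s_F (a : Θ.W.H X) : Θ.C.s (Θ.F a) = Θ.W₀.map R.f (Θ.C.s a) := Θ.corr a

lemma s_F_pow (N : ℕ) (a : Θ.W.H X) :
    Θ.C.s ((Θ.F ^ N) a) = ((Θ.W₀.map R.f).toLinearMap ^ N) (Θ.C.s a) := by
  induction N with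
  | zero => rfl
  | succ N ih =>
    rw [pow_succ', pow_succ', Module.End.mul_apply, Module.End.mul_apply, Θ.s_F, ih]
    rfl

lemma F_mem {i : ℕ} {a : Θ.W.H X} (ha : a ∈ Θ.W.gr X i) : Θ.F a ∈ Θ.W.gr X i := by
  rw [← s_mem_iff Θ.C, Θ.s_F]
  exact Θ.W₀.map_mem R.f ((s_mem_iff Θ.C).2 ha)

lemma F_pow_mem {i : ℕ} {a : Θ.W.H X} (ha : a ∈ Θ.W.gr X i) (j : ℕ) :
    (Θ.F ^ j) a ∈ Θ.W.gr X i := by
  induction j with
  | zero => exact ha
  | succ j ih => rw [pow_succ', Module.End.mul_apply]; exact Θ.F_mem ih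

end FrobTh

/-- **The maximal factor and the powers of Frobenius.** -/
theorem frobenius_part (R : Reduction X 𝒱₀)
    (hS₀ : ∀ W₀ W₀' : WeilCohomology.{u₁, v₁} ops₀, Q₀ W₀ → Q₀ W₀' → SameTraces R.X₀ i W₀ W₀') {D : X.Cycles} (hD : X.IsCyc 1 D)
    (hi : i ≤ X.dim) {z : (X.prod X).Cycles} (hz : (X.prod X).IsCyc i z) {r : ℕ}
    (hE : ∀ W : WeilCohomology.{u, v} ops, Q W →
      InvertsOnFactor W X D i z r)
    (hS : ∀ W : WeilCohomology.{u, v} ops, Q W →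
      SelfAdjointOn (W.gr X i) (W.tr X) (lefPow W X D (X.dim - i))
        (corrLef W X D i (W.cl _ z))) :
    ∃ g : ℕ → ℚ[X], ∀ Θ : FrobTh.{u₁, v₁, u, v} (ops := ops) (ops₀ := ops₀) Q Q₀ R,
      CutsOutAll (Θ.W.gr X i) (corrLef Θ.W X D i (Θ.W.cl _ z)) Θ.F R.q i r g := by
  classical
  have hJ := lefIdeal_isLeftIdeal.{u, v} (ops := ops) hD hi
  set T : Fam.{u, v} ops X := fun W => W.corr (W.cl _ z) * LL D W ^ (X.dim - i) with hT
  have hTr : Realized ops X 0 T := hJ.real T ⟨z, hz, fun _ => rfl⟩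
  obtain ⟨w, hw, hTw⟩ : ∃ w, (X.prod X).IsCyc X.dim w ∧
      ∀ W : WeilCohomology.{u, v} ops, T W = W.corr (W.cl _ w) := by
    rcases hTr with ⟨p, hp, w, hw, h⟩ | ⟨hd, _⟩
    · obtain rfl : p = X.dim := by omega
      exact ⟨w, hw, h⟩
    · omega
  have hw₀ : (R.X₀.prod R.X₀).IsCyc R.X₀.dim (R.sp w) := by
    rw [R.dim_eq]; exact R.mem _ _ hw
  set T₀ : Fam.{u₁, v₁} ops₀ R.X₀ := fun W₀ => W₀.corr (W₀.cl _ (R.sp w)) with hT₀
  have hT₀r : Realized ops₀ R.X₀ 0 T₀ := Or.inl ⟨R.X₀.dim, by simp, R.sp w, hw₀, fun _ => rfl⟩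
  have hTlef : ∀ W : WeilCohomology.{u, v} ops, corrLef W X D i (W.cl _ z) = T W := fun W => by
    rw [corrLef_eq]
  have hsT : ∀ (Θ : FrobTh.{u₁, v₁, u, v} (ops := ops) (ops₀ := ops₀) Q Q₀ R) (a : Θ.W.H X),
      Θ.C.s (T Θ.W a) = T₀ Θ.W₀ (Θ.C.s a) := by
    intro Θ a
    rw [hTw, Θ.C.s_corr, Θ.C.isSquare.cl]
  have hpure : ∀ Θ : FrobTh.{u₁, v₁, u, v} (ops := ops) (ops₀ := ops₀) Q Q₀ R, Q Θ.W :=
    fun Θ => Θ.mem
  -- the traces
  have hfam : ∀ N : ℕ, Realized ops₀ R.X₀ 0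
      (fun W₀ => T₀ W₀ * (W₀.map R.f).toLinearMap ^ N) := fun N =>
    (hT₀r.mul ((realized_map R.f).pow0 N)).cast (zero_add 0)
  have hfam' : ∀ N : ℕ, Realized ops₀ R.X₀ 0
      (fun W₀ => (1 - T₀ W₀) * (W₀.map R.f).toLinearMap ^ N) := fun N =>
    ((Realized.one.sub hT₀r).mul ((realized_map R.f).pow0 N)).cast (zero_add 0)
  have hσ : ∀ (Θ : FrobTh.{u₁, v₁, u, v} (ops := ops) (ops₀ := ops₀) Q Q₀ R) (N : ℕ),
      LinearMap.trace Θ.W₀.K _ (proj (Θ.W₀.isInternal R.X₀) i *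
        (T₀ Θ.W₀ * (Θ.W₀.map R.f).toLinearMap ^ N)) =
      Θ.C.σ (LinearMap.trace Θ.W.K _ (proj (Θ.W.isInternal X) i * (T Θ.W * Θ.F ^ N))) := by
    intro Θ N
    refine trace_semilinear Θ.C.σ Θ.C.s.toAddEquiv Θ.C.s_smul fun x => ?_
    change Θ.C.s (proj (Θ.W.isInternal X) i (T Θ.W ((Θ.F ^ N) x))) = _
    rw [Θ.C.s_proj, hsT, Θ.s_F_pow]
    rfl
  have hσ' : ∀ (Θ : FrobTh.{u₁, v₁, u, v} (ops := ops) (ops₀ := ops₀) Q Q₀ R) (N : ℕ),
      LinearMap.trace Θ.W₀.K _ (proj (Θ.W₀.isInternal R.X₀) i *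
        ((1 - T₀ Θ.W₀) * (Θ.W₀.map R.f).toLinearMap ^ N)) =
      Θ.C.σ (LinearMap.trace Θ.W.K _ (proj (Θ.W.isInternal X) i *
        ((1 - T Θ.W) * Θ.F ^ N))) := by
    intro Θ N
    refine trace_semilinear Θ.C.σ Θ.C.s.toAddEquiv Θ.C.s_smul fun x => ?_
    change Θ.C.s (proj (Θ.W.isInternal X) i ((Θ.F ^ N) x - T Θ.W ((Θ.F ^ N) x))) = _
    rw [Θ.C.s_proj, map_sub Θ.C.s, hsT, Θ.s_F_pow]
    rfl
  by_cases hne : Nonempty (FrobTh.{u₁, v₁, u, v} (ops := ops) (ops₀ := ops₀) Q Q₀ R)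
  swap
  · exact ⟨fun _ => 0, fun Θ => absurd ⟨Θ⟩ hne⟩
  obtain ⟨Θ₁⟩ := hne
  have ht : ∀ N : ℕ, ∃ t : ℚ, ∀ Θ : FrobTh.{u₁, v₁, u, v} (ops := ops) (ops₀ := ops₀) Q Q₀ R,
      LinearMap.trace Θ.W.K _ (proj (Θ.W.isInternal X) i * (T Θ.W * Θ.F ^ N)) = t := by
    intro N
    obtain ⟨t, ht, -⟩ := hS₀ _ _ Θ₁.mem₀ Θ₁.mem₀ _ (hfam N)
    refine ⟨t, fun Θ => ?_⟩
    obtain ⟨t', ht1, ht2⟩ := hS₀ _ _ Θ₁.mem₀ Θ.mem₀ _ (hfam N)
    have h1 : t = t' := by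
      have := ht.symm.trans ht1
      exact_mod_cast this
    apply Θ.C.σ.injective
    rw [← hσ, map_ratCast, h1]
    exact ht2
  choose t ht using ht
  refine ⟨fun N => newtonPoly r (fun j => t (N * j)), fun Θ => ?_⟩
  have hinv := hE Θ.W (hpure Θ)
  rw [InvertsOnFactor, hTlef] at hinv
  obtain ⟨hidem, hrank⟩ := hinv
  have hself := hS Θ.W (hpure Θ)
  rw [hTlef] at hself
  -- the exponents
  obtain ⟨m₁, hm₁, h₁⟩ := exists_commute R.one_lt Θ.cyc hw₀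
  obtain ⟨m₂, hm₂, h₂⟩ := exists_tr_pow Θ.cyc
  have hdiv : Θ.W₀.cl _ (R.sp (ops.pull (fst X X) D)) =
      Θ.W₀.map (fst R.X₀ R.X₀) (Θ.C.s (Θ.W.cl X D)) := by
    rw [← Θ.C.isSquare.cl, Θ.W.cl_pull, Θ.C.isSquare.fst]
  obtain ⟨m₃, hm₃, h₃⟩ := exists_div Θ.cyc (R.mem 1 _ (ops.pull_mem _ hD)) hdiv
  refine ⟨m₁ * m₂ * m₃, Nat.mul_pos (Nat.mul_pos hm₁ hm₂) hm₃, fun e _ => ?_⟩
  obtain ⟨N, hN⟩ : ∃ N, N = m₁ * m₂ * m₃ * e := ⟨_, rfl⟩
  rw [← hN]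
  set F := Θ.F ^ N with hF
  have hsF : ∀ a, Θ.C.s (F a) = Θ.W₀.map (iter R.f N) (Θ.C.s a) := by
    intro a
    rw [hF, Θ.s_F_pow, map_iter]
  have hcomm : Commute (T Θ.W) F := by
    have h4 : Commute (T₀ Θ.W₀) ((Θ.W₀.map R.f).toLinearMap ^ N) := by
      rw [hN, mul_assoc m₁, mul_assoc m₁]
      exact h₁ (m₂ * m₃ * e)
    apply LinearMap.ext
    intro a
    apply Θ.C.s.injective
    have e1 : Θ.C.s (T Θ.W (F a)) = T₀ Θ.W₀ (((Θ.W₀.map R.f).toLinearMap ^ N) (Θ.C.s a)) := by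
      rw [hsT, hF, Θ.s_F_pow]
    have e2 : Θ.C.s (F (T Θ.W a)) = ((Θ.W₀.map R.f).toLinearMap ^ N) (T₀ Θ.W₀ (Θ.C.s a)) := by
      rw [hF, Θ.s_F_pow, hsT]
    change Θ.C.s (T Θ.W (F a)) = Θ.C.s (F (T Θ.W a))
    rw [e1, e2]
    exact congrArg (fun G => G (Θ.C.s a)) h4.eq
  have htr : ∀ a, Θ.W.tr X (F a) = (R.q : Θ.W.K) ^ (N * X.dim) * Θ.W.tr X a := by
    intro a
    have h4 := h₂ (m₁ * m₃ * e) (Θ.C.s a)
    rw [show m₂ * (m₁ * m₃ * e) = N by rw [hN]; ring, ← hsF, Θ.C.isComparison.tr_eq,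
      Θ.C.isComparison.tr_eq, R.dim_eq] at h4
    apply Θ.C.σ.injective
    rw [h4, map_mul, map_pow, map_natCast]
  set ξ := Θ.W.cl X D with hξ
  have hξN : F ξ = (R.q : Θ.W.K) ^ N • ξ := by
    have h4 := h₃ (m₁ * m₂ * e)
    rw [show m₃ * (m₁ * m₂ * e) = N by rw [hN]; ring, ← hsF] at h4
    apply Θ.C.s.injective
    rw [h4, Θ.C.s_smul, map_pow, map_natCast]
  have hFmul : ∀ a b, F (a * b) = F a * F b := by
    intro a b
    apply Θ.C.s.injective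
    rw [hsF, map_mul Θ.C.s, map_mul Θ.C.s, map_mul (Θ.W₀.map (iter R.f N)), hsF, hsF]
  have hF1 : F 1 = 1 := by
    apply Θ.C.s.injective
    rw [hsF, map_one, map_one]
  have hFpow' : ∀ j : ℕ, F (ξ ^ j) = (R.q : Θ.W.K) ^ (N * j) • ξ ^ j := by
    intro j
    induction j with
    | zero => rw [pow_zero, hF1, mul_zero, pow_zero, one_smul]
    | succ j ih =>
      rw [pow_succ, hFmul, ih, hξN, smul_mul_smul_comm, ← pow_add, mul_add, mul_one]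
  set U := Θ.W.gr X i with hU
  have hmem : ∀ a ∈ U, T Θ.W a ∈ U := fun a ha => real_mem hTr Θ.W ha
  have hFU : ∀ a ∈ U, F a ∈ U := fun a ha => Θ.F_pow_mem ha N
  have hFpow : ∀ (j : ℕ), F ^ j = Θ.F ^ (N * j) := fun j => (pow_mul _ _ _).symm
  have hFjU : ∀ (j : ℕ), ∀ a ∈ U, (F ^ j) a ∈ U := fun j a ha => by
    rw [hFpow]
    exact Θ.F_pow_mem ha _
  have hcj : ∀ j : ℕ, Commute (T Θ.W) (F ^ j) := fun j => hcomm.pow_right j
  have hstab1 : ∀ j : ℕ, ∀ a ∈ U.map (T Θ.W), (F ^ j) a ∈ U.map (T Θ.W) := by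
    rintro j _ ⟨a, ha, rfl⟩
    refine ⟨(F ^ j) a, hFjU j a ha, ?_⟩
    rw [← Module.End.mul_apply, (hcj j).eq, Module.End.mul_apply]
  have hstab2 : ∀ j : ℕ, ∀ a ∈ U ⊓ LinearMap.ker (T Θ.W),
      (F ^ j) a ∈ U ⊓ LinearMap.ker (T Θ.W) := by
    rintro j a ⟨ha, ha0⟩
    refine ⟨hFjU j a ha, ?_⟩
    have ha0' : T Θ.W a = 0 := ha0
    change T Θ.W ((F ^ j) a) = 0
    rw [← Module.End.mul_apply, (hcj j).eq, Module.End.mul_apply, ha0', map_zero]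
  have h1st := fun a ha => by simpa only [pow_one] using hstab1 1 a ha
  have h2st := fun a ha => by simpa only [pow_one] using hstab2 1 a ha
  set P := proj (Θ.W.isInternal X) i with hP
  -- the characteristic polynomial on the image
  have hχ1 : (F.restrict h1st).charpoly =
      (newtonPoly r (fun j => t (N * j))).map (algebraMap ℚ Θ.W.K) := by
    have h5 := charpoly_eq_newtonPoly (F.restrict h1st) (t := fun j => t (N * j)) (by
      intro j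
      rw [restrict_pow h1st j (hstab1 j), trace_restrict_image (U := U.map (T Θ.W)) (P := P)
        (Q := T Θ.W) (fun x => ⟨P x, proj_mem _ i x, rfl⟩) (by
          rintro _ ⟨a, ha, rfl⟩
          rw [hP, proj_same _ (hmem a ha), hidem a ha]) (hstab1 j),
        ← (hcj j).eq, LinearMap.trace_mul_comm, hFpow]
      exact ht (N * j) Θ)
    rw [h5]
    congr 2
  -- the characteristic polynomial on the kernel
  have hex2 : ∀ j : ℕ, ∃ s : ℚ, LinearMap.trace Θ.W.K _ ((F.restrict h2st) ^ j) = s := by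
    intro j
    obtain ⟨s, hs, -⟩ := hS₀ _ _ Θ.mem₀ Θ.mem₀ _ (hfam' (N * j))
    refine ⟨s, ?_⟩
    rw [restrict_pow h2st j (hstab2 j), trace_restrict_image (U := U ⊓ LinearMap.ker (T Θ.W))
      (P := P) (Q := 1 - T Θ.W)
      (fun x => by
        refine ⟨Submodule.sub_mem _ (proj_mem _ i x) (hmem _ (proj_mem _ i x)), ?_⟩
        change T Θ.W (P x - T Θ.W (P x)) = 0
        rw [map_sub, hidem _ (proj_mem _ i x), sub_self]) (by
        rintro x ⟨hx, hx0⟩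
        have hx0' : T Θ.W x = 0 := hx0
        rw [hP, proj_same _ hx, LinearMap.sub_apply, Module.End.one_apply, hx0', sub_zero])
        (hstab2 j)]
    have h6 : F ^ j * (1 - T Θ.W) = (1 - T Θ.W) * F ^ j := by
      rw [mul_sub, sub_mul, (hcj j).eq, mul_one, one_mul]
    rw [h6, LinearMap.trace_mul_comm, hFpow]
    apply Θ.C.σ.injective
    rw [← hσ', map_ratCast]
    exact hs
  choose s hs using hex2
  have hχ2 := charpoly_eq_newtonPoly (F.restrict h2st) (t := s) hs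
  have hχ := charpoly_split (U := U) (E := T Θ.W) hmem hidem hFU h1st h2st
  rw [hχ1, hχ2, ← Polynomial.map_mul] at hχ
  have hdeg : (newtonPoly r (fun j => t (N * j))).natDegree = r :=
    (natDegree_newtonPoly hχ1).trans hrank
  rw [hTlef]
  refine ⟨hcomm, hdeg, ⟨h1st, hχ1⟩, ⟨_, ⟨hFU, hχ⟩⟩, ?_⟩
  -- the functional equation
  have hq0 : (R.q : Θ.W.K) ≠ 0 := by
    have := R.one_lt
    exact_mod_cast (by omega : R.q ≠ 0)
  have hsim : ∀ a b : Θ.W.H X, Θ.W.tr X (F a * (ξ ^ (X.dim - i) * F b)) =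
      (R.q : Θ.W.K) ^ (N * i) * Θ.W.tr X (a * (ξ ^ (X.dim - i) * b)) := by
    intro a b
    have h7 := htr (a * (ξ ^ (X.dim - i) * b))
    rw [hFmul, hFmul, hFpow', smul_mul_assoc, mul_smul_comm, map_smul, smul_eq_mul] at h7
    have h8 : (R.q : Θ.W.K) ^ (N * (X.dim - i)) ≠ 0 := pow_ne_zero _ hq0
    have h9 : (R.q : Θ.W.K) ^ (N * X.dim) =
        (R.q : Θ.W.K) ^ (N * (X.dim - i)) * (R.q : Θ.W.K) ^ (N * i) := by
      rw [← pow_add, ← mul_add, Nat.sub_add_cancel hi]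
    rw [h9, mul_assoc] at h7
    exact mul_left_cancel₀ h8 h7
  refine functionalEquation_of_map (K := Θ.W.K) hdeg fun x hx => ?_
  have h10 := functional (form Θ.W (ξ ^ (X.dim - i)) (U.map (T Θ.W)))
    (nondeg_image (C := Θ.W.corr (Θ.W.cl _ z)) hi (cl_pow_mem hD _) (fun a _ => by
      rw [hT]
      beta_reduce
      rw [Module.End.mul_apply, LL_pow_apply]) hmem hidem hself)
    (F.restrict h1st) (c := (R.q : Θ.W.K) ^ (N * i)) (fun a b => by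
      rw [form_apply, form_apply]
      exact hsim a b) hx
  rw [hχ1, hrank] at h10
  have e5 : ((((R.q : ℚ) ^ (N * i) : ℚ)) : Θ.W.K) = (R.q : Θ.W.K) ^ (N * i) := by
    push_cast
    rfl
  rw [e5]
  exact h10

/-- The main theorem. -/
theorem main (X : 𝒱.Obj) (P : WeilCohomology.{u, v} ops → Prop) (D : X.Cycles)
    (hD : X.IsCyc 1 D) (i : ℕ) (hi : i ≤ X.dim) (hP : RationalTraces P X i) :
    ∃ (z : (X.prod X).Cycles) (r : ℕ),
      MaximalPartialInverse P X D i z r ∧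
      (∀ W, P W → (OneCycleForAll P X D i ↔ DimIs (W.gr X i) r)) ∧
      (∀ W, P W → SymmetricCycle W X D i z) ∧
      (Odd i → Even r ∧ ∀ W, P W → InjectsOn (W.gr X i) (lefPow W X D (X.dim - i)) →
        ∀ b, DimIs (W.gr X i) b → Even b) ∧
      FrobeniusPart.{u₁, v₁, u, v} P X D i z r := by
  obtain ⟨z, r, h1, h2, h3, h4⟩ := exists_symmetricFactor (P := P)
    (fun W W' hW hW' => sameTraces_of_rational hP hW hW') hD hi
  refine ⟨z, r, h1, fun W hW => (h2 W hW).trans ⟨fun h => h.symm, fun h => h.symm⟩, h3,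
    fun ho => ⟨(h4 ho).1, fun W hW hinj b hb => hb ▸ (h4 ho).2 W hW hinj⟩, ?_⟩
  intro k₀ _ 𝒱₀ ops₀ R P₀ hP₀
  obtain ⟨g, hg⟩ := frobenius_part (Q := P) (Q₀ := P₀) R
    (fun W W' hW hW' => sameTraces_of_rational hP₀ hW hW') hD hi h1.1
    (fun W hW => (h1.2 W hW).1) h3
  refine ⟨g, ?_⟩
  rintro W F hW ⟨W₀, C, hW₀, hF, hcyc⟩
  have hg' := hg ⟨W, W₀, C, F, hW, hW₀, hF, hcyc⟩
  refine ⟨hg', fun hN => ?_⟩
  obtain ⟨m, hm, h⟩ := hg'
  obtain ⟨-, hdeg, -, ⟨h', hall⟩, hf⟩ := h 1 le_rfl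
  rcases hN (m * 1) (by omega) _ h' hall hf with h5 | h5
  · exact Or.inl (hdeg.symm.trans h5)
  · exact Or.inr ((h2 W hW).2 (hdeg.symm.trans h5))

/-- The Riemann hypothesis gives rational traces. -/
theorem riemannCase (ops : CycleOps 𝒱) (X : 𝒱.Obj) (i : ℕ) :
    RiemannCase.{u, v} ops X i :=
  fun _ _ hq => rational_of_sameTraces fun _ _ hW hW' => sameTraces_of_rh hq hW hW' i

end Pool.Agent.K4H38.SYG
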